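import Mathlib
import Pool.Agent.helper87.FourThirds

namespace Pool.Agent.helper87.Retired.LogBound39b49d

open Pool.Agent.helper87

/-- Every interval `[n, n + 17 + k]` with `3 ^ (k + 4)` larger than `fa (n + 13) + 1` contains an
index with composite value. -/
theorem exists_comp {n k : ℕ} (hn : 8 ≤ n) (hk : fa (n + 13) + 1 < 3 ^ (k + 4)) :
    ∃ j ≤ 17 + k, Comp (fa (n + j)) := by
  by_contra hcon
  push Not at hcon
  have hg : ∀ j ≤ 17 + k, Good (fa (n + j)) := fun j hj =>
    good_of_not_comp (seven_lt (by omega)) (hcon j hj)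
  have law := run_law hg (k + 4) le_rfl
  have hd : 3 ^ (k + 4) ∣ 4 ^ (k + 4) * (fa (n + 13) + 1) := ⟨_, law.symm⟩
  have hc : Nat.Coprime (3 ^ (k + 4)) (4 ^ (k + 4)) := by
    apply Nat.Coprime.pow
    norm_num
  have hd' : 3 ^ (k + 4) ∣ fa (n + 13) + 1 := hc.dvd_of_dvd_mul_left hd
  have := Nat.le_of_dvd (Nat.succ_pos _) hd'
  omega

/-- `κ = log 4 / log 3`. -/
noncomputable def kap : ℝ := Real.log 4 / Real.log 3

theorem log3_pos : 0 < Real.log 3 := Real.log_pos (by norm_num)

theorem kap_gt : 1 < kap := by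
  unfold kap
  rw [lt_div_iff₀ log3_pos, one_mul]
  exact Real.log_lt_log (by norm_num) (by norm_num)

theorem kap_lt : kap < 2 := by
  unfold kap
  rw [div_lt_iff₀ log3_pos]
  have h9 : Real.log 9 = 2 * Real.log 3 := by
    rw [show (9 : ℝ) = 3 ^ 2 by norm_num, Real.log_pow]; norm_num
  rw [← h9]
  exact Real.log_lt_log (by norm_num) (by norm_num)

theorem exists_comp' {n : ℕ} (hn : 8 ≤ n) :
    ∃ m : ℕ, n ≤ m ∧ (m : ℝ) ≤ kap * n + 44 ∧ Comp (fa m) := by
  have hk1 := kap_gt
  have hk2 := kap_lt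
  obtain ⟨k, hk⟩ : ∃ k : ℕ, k = ⌈((n : ℝ) + 13) * (kap - 1)⌉₊ := ⟨_, rfl⟩
  have hkge : ((n : ℝ) + 13) * (kap - 1) ≤ k := by rw [hk]; exact Nat.le_ceil _
  have hklt : (k : ℝ) < ((n : ℝ) + 13) * (kap - 1) + 1 := by
    rw [hk]
    exact Nat.ceil_lt_add_one (by
      have : (0 : ℝ) ≤ n := Nat.cast_nonneg n
      nlinarith)
  have key : fa (n + 13) + 1 < 3 ^ (k + 4) := by
    have h1 : ((fa (n + 13) : ℕ) : ℝ) ≤ (4 / 3 : ℝ) ^ (n + 13) := fa_le _
    have h2 : (4 / 3 : ℝ) ^ (n + 13) ≤ (3 : ℝ) ^ k := by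
      have e1 : (4 / 3 : ℝ) ^ (n + 13) = Real.exp (((n : ℝ) + 13) * Real.log (4 / 3)) := by
        rw [mul_comm, Real.exp_mul, Real.exp_log (by norm_num)]
        rw [← Real.rpow_natCast]
        push_cast
        ring_nf
      have e2 : (3 : ℝ) ^ k = Real.exp ((k : ℝ) * Real.log 3) := by
        rw [mul_comm, Real.exp_mul, Real.exp_log (by norm_num), Real.rpow_natCast]
      rw [e1, e2, Real.exp_le_exp]
      have e3 : Real.log (4 / 3) = (kap - 1) * Real.log 3 := by
        rw [Real.log_div (by norm_num) (by norm_num)]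
        unfold kap
        have := log3_pos.ne'
        field_simp
      rw [e3]
      calc ((n : ℝ) + 13) * ((kap - 1) * Real.log 3)
          = (((n : ℝ) + 13) * (kap - 1)) * Real.log 3 := by ring
        _ ≤ k * Real.log 3 := mul_le_mul_of_nonneg_right hkge log3_pos.le
    have h3 : (1 : ℝ) ≤ (3 : ℝ) ^ k := one_le_pow₀ (by norm_num)
    have h4 : ((fa (n + 13) + 1 : ℕ) : ℝ) < ((3 ^ (k + 4) : ℕ) : ℝ) := by
      push_cast
      calc ((fa (n + 13) : ℕ) : ℝ) + 1 ≤ (3 : ℝ) ^ k + 1 := by linarith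
        _ < (3 : ℝ) ^ (k + 4) := by rw [pow_add]; nlinarith
    exact_mod_cast h4
  obtain ⟨j, hj, hc⟩ := exists_comp hn key
  refine ⟨n + j, Nat.le_add_right _ _, ?_, hc⟩
  have hj' : (j : ℝ) ≤ 17 + k := by exact_mod_cast hj
  push_cast
  have hn0 : (0 : ℝ) ≤ n := Nat.cast_nonneg n
  nlinarith

/-- The growth bound for the counting function. -/
theorem count_bound : ∀ i N : ℕ, 10000 * kap ^ i ≤ (N : ℝ) + 500 → i ≤ (compIdx N).card := by
  have hk1 := kap_gt
  have hk2 := kap_lt
  have hk3 : (1.25 : ℝ) ≤ kap := by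
    unfold kap
    rw [le_div_iff₀ log3_pos]
    have h1 : (1.25 : ℝ) * Real.log 3 = Real.log 243 / 4 := by
      rw [show (243 : ℝ) = 3 ^ 5 by norm_num, Real.log_pow]; push_cast; ring
    have h2 : Real.log 4 = Real.log 256 / 4 := by
      rw [show (256 : ℝ) = 4 ^ 4 by norm_num, Real.log_pow]; push_cast; ring
    rw [h1, h2]
    have : Real.log 243 ≤ Real.log 256 := Real.log_le_log (by norm_num) (by norm_num)
    linarith
  intro i
  induction i with
  | zero => intro N _; exact Nat.zero_le _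
  | succ i ih =>
    intro N hN
    -- the previous level
    obtain ⟨M, hM⟩ : ∃ M : ℕ, M = ⌊((N : ℝ) + 500) / kap - 500⌋₊ + 1 := ⟨_, rfl⟩
    have hkp : (1 : ℝ) ≤ kap ^ i := one_le_pow₀ hk1.le
    have hkpos : 0 < kap := by linarith
    have hq : 10000 * kap ^ i ≤ ((N : ℝ) + 500) / kap := by
      rw [le_div_iff₀ hkpos]
      calc 10000 * kap ^ i * kap = 10000 * kap ^ (i + 1) := by ring
        _ ≤ _ := hN
    have hnn : (0 : ℝ) ≤ ((N : ℝ) + 500) / kap - 500 := by nlinarith
    have hM1 : ((N : ℝ) + 500) / kap - 500 < M := by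
      rw [hM]; push_cast; exact Nat.lt_floor_add_one _
    have hM2 : (M : ℝ) ≤ ((N : ℝ) + 500) / kap - 500 + 1 := by
      rw [hM]; push_cast
      have := Nat.floor_le hnn
      linarith
    have hiM : i ≤ (compIdx M).card := ih M (by linarith)
    have hM8 : 8 ≤ M + 1 := by
      have : (8 : ℝ) ≤ M := by nlinarith
      have : 8 ≤ M := by exact_mod_cast this
      omega
    obtain ⟨m, hm1, hm2, hmc⟩ := exists_comp' hM8
    have hmN : m ≤ N := by
      have h1 : (m : ℝ) ≤ kap * ((M : ℝ) + 1) + 44 := by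
        have := hm2; push_cast at this; linarith
      have h2 : kap * (M : ℝ) ≤ (N : ℝ) + 500 - 500 * kap + kap := by
        calc kap * (M : ℝ) ≤ kap * (((N : ℝ) + 500) / kap - 500 + 1) :=
              mul_le_mul_of_nonneg_left hM2 hkpos.le
          _ = (N : ℝ) + 500 - 500 * kap + kap := by field_simp
      have h3 : (m : ℝ) ≤ N := by nlinarith
      exact_mod_cast h3
    have hsub : insert m (compIdx M) ⊆ compIdx N := by
      intro x hx
      rw [Finset.mem_insert] at hx
      rw [mem_compIdx]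
      rcases hx with rfl | hx
      · exact ⟨⟨by omega, hmN⟩, hmc⟩
      · rw [mem_compIdx] at hx
        exact ⟨⟨hx.1.1, by omega⟩, hx.2⟩
    have hnot : m ∉ compIdx M := by
      rw [mem_compIdx]
      intro h
      omega
    calc i + 1 ≤ (compIdx M).card + 1 := by omega
      _ = (insert m (compIdx M)).card := (Finset.card_insert_of_notMem hnot).symm
      _ ≤ (compIdx N).card := Finset.card_le_card hsub

/-- The number of `n ≤ N` with `⌊(4/3)^n⌋` composite is at least
`log N / log (log 4 / log 3) - K`, where `1 / log (log 4 / log 3) = 4.29...`. -/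
theorem result : ∃ K : ℝ, ∀ N : ℕ, 1 ≤ N →
    Real.log N / Real.log (Real.log 4 / Real.log 3) - K ≤
      (((Finset.Icc 1 N).filter
        (fun n : ℕ => 1 < ⌊((4 : ℝ) / 3) ^ n⌋₊ ∧ ¬ (⌊((4 : ℝ) / 3) ^ n⌋₊).Prime)).card : ℝ) := by
  have hk1 := kap_gt
  have hlk : 0 < Real.log kap := Real.log_pos hk1
  refine ⟨Real.log 10000 / Real.log kap + 1, fun N hN => ?_⟩
  change Real.log N / Real.log kap - _ ≤ ((compIdx N).card : ℝ)
  have hN' : (1 : ℝ) ≤ N := by exact_mod_cast hN
  by_cases hcase : Real.log N / Real.log kap - (Real.log 10000 / Real.log kap) ≤ 0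
  · have : (0 : ℝ) ≤ ((compIdx N).card : ℝ) := Nat.cast_nonneg _
    linarith
  · push Not at hcase
    obtain ⟨i, hi⟩ : ∃ i : ℕ,
        i = ⌊Real.log N / Real.log kap - (Real.log 10000 / Real.log kap)⌋₊ := ⟨_, rfl⟩
    have hi1 : (i : ℝ) ≤ Real.log N / Real.log kap - (Real.log 10000 / Real.log kap) := by
      rw [hi]; exact Nat.floor_le hcase.le
    have hi2 : Real.log N / Real.log kap - (Real.log 10000 / Real.log kap) < i + 1 := by
      rw [hi]; exact Nat.lt_floor_add_one _
    have hpow : 10000 * kap ^ i ≤ (N : ℝ) := by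
      have hpos : (0 : ℝ) < 10000 * kap ^ i := by positivity
      rw [← Real.log_le_log_iff hpos (by linarith), Real.log_mul (by norm_num) (by positivity),
        Real.log_pow]
      have : (i : ℝ) * Real.log kap ≤
          (Real.log N / Real.log kap - (Real.log 10000 / Real.log kap)) * Real.log kap :=
        mul_le_mul_of_nonneg_right hi1 hlk.le
      have e : (Real.log N / Real.log kap - (Real.log 10000 / Real.log kap)) * Real.log kap
          = Real.log N - Real.log 10000 := by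
        field_simp
      linarith
    have := count_bound i N (by linarith)
    have h' : (i : ℝ) ≤ ((compIdx N).card : ℝ) := by exact_mod_cast this
    linarith

end Pool.Agent.helper87.Retired.LogBound39b49d
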